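import Pool.Agent.Helper65.KPV.St

/-! PROJECT KP (MP_26be5b_ag), chapter A part V, module ROT: the torus acts on the algebra of a nice filtration. -/

set_option autoImplicit false

namespace Pool.Agent.Helper70.KPV

open Pool.Agent.Helper65.KPV Pool.Agent.Helper5.KPA Pool.Agent.Helper52.KP

private theorem rt_coeff (m : ℕ) (c : ℂ) (x : QQ m) (l : ℕ) :
    (rt m c x).coeff l = c ^ l • x.coeff l := by
  have e : rt m c x = x.comp (Polynomial.C (MvPolynomial.C c) * Polynomial.X) := by
    unfold rt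
    rw [AlgHom.restrictScalars_apply, Polynomial.aeval_def, Polynomial.comp]
    rfl
  rw [e, Polynomial.comp_C_mul_X_coeff, ← map_pow, MvPolynomial.smul_eq_C_mul, mul_comm]

/-- the map of the coefficients -/
private noncomputable def zc {m : ℕ} (w : Fin m → ℕ) (c : ℂ) :
    MvPolynomial (Fin m) ℂ →ₐ[ℂ] MvPolynomial (Fin m) ℂ :=
  MvPolynomial.aeval fun j => MvPolynomial.C (c ^ w j) * MvPolynomial.X j

private theorem zt_coeff {m : ℕ} (w : Fin m → ℕ) (c : ℂ) (x : QQ m) (l : ℕ) :
    (zt w c x).coeff l = zc w c (x.coeff l) := by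
  unfold zt zc
  rw [Polynomial.coe_mapAlgHom, Polynomial.coeff_map]
  rfl

private theorem zc_eval {m : ℕ} (w : Fin m → ℕ) (c : ℂ) (f : MvPolynomial (Fin m) ℂ)
    (z : Fin m → ℂ) : MvPolynomial.eval z (zc w c f) = MvPolynomial.eval (scl w c z) f := by
  unfold zc scl
  induction f using MvPolynomial.induction_on with
  | C a => rw [MvPolynomial.algHom_C, MvPolynomial.algebraMap_eq, MvPolynomial.eval_C,
      MvPolynomial.eval_C]
  | add p q hp hq => rw [map_add, map_add, map_add, hp, hq]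
  | mul_X p i hp =>
    rw [map_mul, map_mul, map_mul, hp, MvPolynomial.aeval_X, map_mul, MvPolynomial.eval_C,
      MvPolynomial.eval_X, MvPolynomial.eval_X]

private theorem zc_hom (C : Cone) (hC : Good C) (k : ℕ) (f : MvPolynomial (Fin C.m) ℂ)
    (hf : f ∈ C.R k) (c : ℂ) : zc C.w c f = c ^ k • f := by
  apply MvPolynomial.funext
  intro z
  rw [zc_eval, MvPolynomial.smul_eval]
  exact hC.hom k f hf c z

private theorem zc_one {m : ℕ} (w : Fin m → ℕ) (f : MvPolynomial (Fin m) ℂ) : zc w 1 f = f := by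
  apply MvPolynomial.funext
  intro z
  have e : scl w 1 z = z := by
    unfold scl
    funext j
    rw [one_pow, one_mul]
  rw [zc_eval, e]

private theorem zc_mul {m : ℕ} (w : Fin m → ℕ) (c c' : ℂ) (f : MvPolynomial (Fin m) ℂ) :
    zc w (c * c') f = zc w c (zc w c' f) := by
  apply MvPolynomial.funext
  intro z
  have e : scl w (c * c') z = scl w c' (scl w c z) := by
    unfold scl
    funext j
    rw [mul_pow]
    ring
  rw [zc_eval, zc_eval, zc_eval, e]

private theorem anti0 (C : Cone) {r : ℕ} {F : ℕ → ℕ → Submodule ℂ (MvPolynomial (Fin C.m) ℂ)}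
    (hF : NF C r F) (k l : ℕ) : F k l ≤ C.R (C.n * r * k) := by
  rw [← hF.zero k]
  induction l with
  | zero => exact le_refl _
  | succ l ih => exact (hF.anti k l).trans ih

/-- a map which scales the generators preserves the algebra -/
private theorem stab_of {m : ℕ} (F : ℕ → ℕ → Submodule ℂ (MvPolynomial (Fin m) ℂ))
    (σ : QQ m →ₐ[ℂ] QQ m)
    (h : ∀ k l f, f ∈ F k l → ∃ a : ℂ, σ (Polynomial.C f * Polynomial.X ^ l) =
      a • (Polynomial.C f * Polynomial.X ^ l)) : ∀ x ∈ BA F, σ x ∈ BA F := by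
  intro x hx
  unfold BA at hx
  induction hx using Algebra.adjoin_induction with
  | mem x hx =>
    obtain ⟨k, l, f, hf, rfl⟩ := hx
    obtain ⟨a, ha⟩ := h k l f hf
    rw [ha]
    exact (BA F).smul_mem (Algebra.subset_adjoin ⟨k, l, f, hf, rfl⟩) a
  | algebraMap r =>
    rw [AlgHom.commutes]
    exact (BA F).algebraMap_mem r
  | add x y _ _ hx hy => rw [map_add]; exact (BA F).add_mem hx hy
  | mul x y _ _ hx hy => rw [map_mul]; exact (BA F).mul_mem hx hy

theorem hROT (_ : StAGR) (_ : StBAA) : StROT := by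
  intro C hC r F hF
  have hR : ∀ (c : ℂ) (x : QQ C.m) (l : ℕ), (rt C.m c x).coeff l = c ^ l • x.coeff l :=
    fun c x l => rt_coeff C.m c x l
  have hZ : ∀ (c : ℂ) (k : ℕ), ∀ x ∈ QR C k, zt C.w c x = c ^ k • x := by
    intro c k x hx
    ext1 l
    rw [zt_coeff, Polynomial.coeff_smul, zc_hom C hC k _ (hx l) c]
  have hsR : ∀ c : ℂ, ∀ x ∈ BA F, rt C.m c x ∈ BA F := by
    intro c
    apply stab_of
    intro k l f _
    refine ⟨c ^ l, ?_⟩
    ext1 n
    rw [hR, Polynomial.coeff_smul, Polynomial.coeff_C_mul_X_pow]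
    by_cases hn : n = l
    · rw [if_pos hn, hn]
    · rw [if_neg hn, smul_zero, smul_zero]
  have hsZ : ∀ c : ℂ, ∀ x ∈ BA F, zt C.w c x ∈ BA F := by
    intro c
    apply stab_of
    intro k l f hf
    refine ⟨c ^ (C.n * r * k), hZ c _ _ ?_⟩
    intro n
    rw [Polynomial.coeff_C_mul_X_pow]
    by_cases hn : n = l
    · rw [if_pos hn]
      exact anti0 C hF k l hf
    · rw [if_neg hn]
      exact (C.R _).zero_mem
  refine ⟨⟨?_, ?_, fun c _ => hsR c, ?_⟩, ⟨?_, ?_, fun c _ => hsZ c, ?_⟩, hR, hZ⟩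
  · intro x
    ext1 l
    rw [hR, one_pow, one_smul]
  · intro c c' x _ _
    ext1 l
    rw [hR, hR, hR, mul_pow, mul_smul]
  · intro c hc s _ hsX
    have h1 := hsR c _ hsX
    have h2 : rt C.m c (s * Polynomial.X) = c • (rt C.m c s * Polynomial.X) := by
      rw [map_mul, ← mul_smul_comm]
      congr 1
      ext1 l
      rw [hR, Polynomial.coeff_smul, Polynomial.coeff_X]
      by_cases hl : 1 = l
      · rw [if_pos hl, ← hl, pow_one]
      · rw [if_neg hl, smul_zero, smul_zero]
    rw [h2] at h1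
    have h3 := (BA F).smul_mem h1 c⁻¹
    rwa [smul_smul, inv_mul_cancel₀ hc, one_smul] at h3
  · intro x
    ext1 l
    rw [zt_coeff, zc_one]
  · intro c c' x _ _
    ext1 l
    rw [zt_coeff, zt_coeff, zt_coeff, zc_mul]
  · intro c _ s _ hsX
    have h1 := hsZ c _ hsX
    have h2 : zt C.w c (Polynomial.X : QQ C.m) = Polynomial.X := by
      have h3 := hZ c 0 (Polynomial.X : QQ C.m) (by
        intro n
        rw [Polynomial.coeff_X]
        by_cases hn : 1 = n
        · rw [if_pos hn]
          exact hC.one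
        · rw [if_neg hn]
          exact (C.R 0).zero_mem)
      rwa [pow_zero, one_smul] at h3
    rwa [map_mul, h2] at h1

end Pool.Agent.Helper70.KPV
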